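import Pool.Agent.Lib.MP_bd3808_ag.Mg.G010
import Pool.Agent.Lib.MP_bd3808_ag.Mg.G011

/-!
# TASK C6: coherent sheaves form an abelian subcategory
-/

open CategoryTheory CategoryTheory.Limits

namespace MPbd3808.BR

universe u
variable (k : Type u) [Field k]

private lemma C6_of_fintype {k : Type u} [Field k] {X : FunCat k} {σ : Finset Vr} {hσ : Full σ}
    {ι : Type} [Fintype ι]
    (d : ι → Deg) (g : ∀ i, X.obj (Ob.mk σ hσ (d i)))
    (h : ∀ (a : Deg) (x : X.obj (Ob.mk σ hσ a)),
      x ∈ Submodule.span k {y | ∃ (i : ι) (m : Ob.mk σ hσ (d i) ⟶ Ob.mk σ hσ a),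
        y = (X.map m).hom (g i)}) : FGon X hσ := by
  refine ⟨Fintype.card ι, fun i => d ((Fintype.equivFin ι).symm i),
    fun i => g ((Fintype.equivFin ι).symm i), fun a x => ?_⟩
  refine Submodule.span_mono ?_ (h a x)
  rintro y ⟨i, m, rfl⟩
  obtain ⟨j, rfl⟩ := (Fintype.equivFin ι).symm.surjective i
  exact ⟨j, m, rfl⟩

private lemma C6_nat {k : Type u} [Field k] {X Z : FunCat k} (p : Z ⟶ X) {A B : Ob} (m : A ⟶ B)
    (z : Z.obj A) : (p.app B).hom ((Z.map m).hom z) = (X.map m).hom ((p.app A).hom z) :=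
  congrArg (fun h => h.hom z) (p.naturality m)

/-- PROOF. ker: `fgon_of_injective`; coker: `fgon_of_surjective`; prod: generators `(g,0)`, `(0,g')`
(preimages under the bijection `z ↦ (p z, q z)`, which is natural); zero: no generators (`n = 0`). -/
theorem pwClosed_isFG : PwClosed (isFG k) := by
  refine ⟨?_, ?_, ?_, ?_⟩
  · intro X Y Z i f hi _ hY _ σ hσ
    exact fgon_of_injective i hσ (hi _) (hY σ hσ)
  · intro X Y Z f p hp _ _ hY σ hσ
    exact fgon_of_surjective p hσ (fun a => hp _) (hY σ hσ)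
  · intro X Y Z p q hb hX hY σ hσ
    obtain ⟨n, d, g, hg⟩ := hX σ hσ
    obtain ⟨n', d', g', hg'⟩ := hY σ hσ
    let E : ∀ A : Ob, Z.obj A ≃ₗ[k] (X.obj A × Y.obj A) := fun A =>
      LinearEquiv.ofBijective (LinearMap.prod (p.app A).hom (q.app A).hom) (hb A)
    have hE : ∀ (A : Ob) (z : Z.obj A), E A z = ((p.app A).hom z, (q.app A).hom z) :=
      fun A z => rfl
    have hnat : ∀ {A B : Ob} (m : A ⟶ B) (x : X.obj A) (y : Y.obj A),
        (Z.map m).hom ((E A).symm (x, y)) = (E B).symm ((X.map m).hom x, (Y.map m).hom y) := by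
      intro A B m x y
      apply (E B).injective
      rw [LinearEquiv.apply_symm_apply, hE, C6_nat p m, C6_nat q m]
      have h1 := (E A).apply_symm_apply (x, y)
      rw [hE] at h1
      have h2 := (Prod.mk.inj h1).1
      have h3 := (Prod.mk.inj h1).2
      rw [h2, h3]
    refine C6_of_fintype (ι := Fin n ⊕ Fin n') (Sum.elim d d')
      (fun i => match i with
        | Sum.inl i => (E _).symm (g i, 0)
        | Sum.inr j => (E _).symm (0, g' j)) ?_
    intro a z
    set S : Submodule k (Z.obj (Ob.mk σ hσ a)) := Submodule.span k _ with hS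
    have h1 : ∀ x : X.obj (Ob.mk σ hσ a), (E _).symm (x, (0 : Y.obj (Ob.mk σ hσ a))) ∈ S := by
      intro x
      have hx : Submodule.span k {y | ∃ (i : Fin n) (m : Ob.mk σ hσ (d i) ⟶ Ob.mk σ hσ a),
          y = (X.map m).hom (g i)} ≤
          S.comap ((E (Ob.mk σ hσ a)).symm.toLinearMap ∘ₗ LinearMap.inl k _ _) := by
        rw [Submodule.span_le]
        rintro _ ⟨i, m, rfl⟩
        change (E _).symm ((X.map m).hom (g i), (0 : Y.obj (Ob.mk σ hσ a))) ∈ S
        have h2 := hnat m (g i) 0
        rw [map_zero] at h2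
        rw [← h2]
        exact Submodule.subset_span ⟨Sum.inl i, m, rfl⟩
      exact hx (hg a x)
    have h1' : ∀ y : Y.obj (Ob.mk σ hσ a), (E _).symm ((0 : X.obj (Ob.mk σ hσ a)), y) ∈ S := by
      intro y
      have hx : Submodule.span k {y | ∃ (i : Fin n') (m : Ob.mk σ hσ (d' i) ⟶ Ob.mk σ hσ a),
          y = (Y.map m).hom (g' i)} ≤
          S.comap ((E (Ob.mk σ hσ a)).symm.toLinearMap ∘ₗ LinearMap.inr k _ _) := by
        rw [Submodule.span_le]
        rintro _ ⟨i, m, rfl⟩
        change (E _).symm ((0 : X.obj (Ob.mk σ hσ a)), (Y.map m).hom (g' i)) ∈ S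
        have h2 := hnat m 0 (g' i)
        rw [map_zero] at h2
        rw [← h2]
        exact Submodule.subset_span ⟨Sum.inr i, m, rfl⟩
      exact hx (hg' a y)
    have h3 : z = (E _).symm ((p.app _).hom z, (0 : Y.obj (Ob.mk σ hσ a))) +
        (E _).symm ((0 : X.obj (Ob.mk σ hσ a)), (q.app _).hom z) := by
      apply (E _).injective
      rw [map_add, LinearEquiv.apply_symm_apply, LinearEquiv.apply_symm_apply, hE]
      simp
    rw [h3]
    exact S.add_mem (h1 _) (h1' _)
  · intro X hX σ hσ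
    refine ⟨0, Fin.elim0, fun i => i.elim0, fun a x => ?_⟩
    have := hX (Ob.mk σ hσ a)
    rw [Subsingleton.elim x 0]
    exact Submodule.zero_mem _

theorem pwClosed_isCoh : PwClosed (isCoh k) := (pwClosed_isQC k).inf (pwClosed_isFG k)

instance : (isCoh k).ContainsZero := (pwClosed_isCoh k).containsZero
instance : (isCoh k).IsClosedUnderKernels := (pwClosed_isCoh k).kernels
instance : (isCoh k).IsClosedUnderCokernels := (pwClosed_isCoh k).cokernels
instance : (isCoh k).IsClosedUnderFiniteProducts := (pwClosed_isCoh k).finiteProducts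
instance : (isCoh k).IsClosedUnderIsomorphisms := (pwClosed_isCoh k).closedIso

noncomputable instance : Abelian (CohW k) := inferInstance

end MPbd3808.BR
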